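import Pool.Agent.H549Z.R1.Final

set_option autoImplicit false

open MeasureTheory
open scoped ENNReal

namespace Pool.Agent.Results.MP_d0ed5b_an.ABelowKappa

/-- The numerical radius `v(T) = sup {|f (T x)| : ‖x‖ = ‖f‖ = f x = 1}`. -/
noncomputable def numRadius (𝕜 : Type*) [RCLike 𝕜] {X : Type*} [NormedAddCommGroup X]
    [NormedSpace 𝕜 X] (T : X →L[𝕜] X) : ℝ :=
  sSup {r : ℝ | ∃ (x : X) (f : X →L[𝕜] 𝕜), ‖x‖ = 1 ∧ ‖f‖ = 1 ∧ f x = 1 ∧ r = ‖f (T x)‖}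

/-- The rank-one numerical index `n₁(X) = inf {v(T) : T of rank one, ‖T‖ = 1}`. -/
noncomputable def rankOneIndex (𝕜 : Type*) [RCLike 𝕜] (X : Type*) [NormedAddCommGroup X]
    [NormedSpace 𝕜 X] : ℝ :=
  sInf {r : ℝ | ∃ T : X →L[𝕜] X,
    Module.rank 𝕜 (LinearMap.range (T : X →ₗ[𝕜] X)) = 1 ∧ ‖T‖ = 1 ∧ r = numRadius 𝕜 T}

/-- `κ_p = 1 / (p ^ (1/p) q ^ (1/q))` with `q = p / (p - 1)`. -/
noncomputable def kappa (p : ℝ) : ℝ :=
  1 / (p ^ (1 / p) * (p / (p - 1)) ^ (1 / (p / (p - 1))))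

/-- For every `1 < p < ∞`, `p ≠ 2`, both scalar fields and every measure with
`dim L_p(μ) > 1`, the rank-one numerical index of `L_p(μ)` is strictly below `κ_p`; the infimum
defining it is taken over a nonempty set. -/
theorem result (𝕜 : Type*) [RCLike 𝕜] {Ω : Type*} [MeasurableSpace Ω] (μ : Measure Ω)
    (p : ℝ≥0∞) [Fact (1 ≤ p)] (hp1 : 1 < p) (hp : p ≠ ∞) (hp2 : p ≠ 2)
    (hdim : 1 < Module.rank 𝕜 (Lp 𝕜 p μ)) :
    (∃ T : Lp 𝕜 p μ →L[𝕜] Lp 𝕜 p μ,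
      Module.rank 𝕜 (LinearMap.range (T : Lp 𝕜 p μ →ₗ[𝕜] Lp 𝕜 p μ)) = 1 ∧ ‖T‖ = 1 ∧
        numRadius 𝕜 T < kappa p.toReal) ∧
    rankOneIndex 𝕜 (Lp 𝕜 p μ) < kappa p.toReal := by
  have hP : 1 < p.toReal := by
    have := (ENNReal.toReal_lt_toReal ENNReal.one_ne_top hp).2 hp1
    simpa using this
  have hP2 : p.toReal ≠ 2 := by
    intro h
    apply hp2
    rw [← ENNReal.ofReal_toReal hp, h]
    simp
  have hPQ : p.toReal.HolderConjugate (p.toReal / (p.toReal - 1)) :=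
    (Real.holderConjugate_iff_eq_conjExponent hP).2 rfl
  obtain ⟨φ, y, c, hc, hrad, hlt⟩ := Pool.Agent.H549Z.R1.exists_op hp _ hPQ hP2 hdim
  set K := p.toReal ^ (1 / p.toReal) *
    (p.toReal / (p.toReal - 1)) ^ (1 / (p.toReal / (p.toReal - 1))) with hK
  have hK0 : 0 < K := by
    have h1 : 0 < p.toReal := by linarith
    have h2 := hPQ.symm.pos
    positivity
  have hN : 0 < ‖φ‖ * ‖y‖ := lt_trans (mul_pos hc hK0) hlt
  have hφ0 : 0 < ‖φ‖ := by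
    rcases (norm_nonneg φ).eq_or_lt with h | h
    · rw [← h, zero_mul] at hN; exact absurd hN (lt_irrefl _)
    · exact h
  have hy0 : 0 < ‖y‖ := (mul_pos_iff_of_pos_left hφ0).1 hN
  set a : 𝕜 := (((‖φ‖ * ‖y‖)⁻¹ : ℝ) : 𝕜) with ha
  have hna : ‖a‖ = (‖φ‖ * ‖y‖)⁻¹ := by
    rw [ha, RCLike.norm_ofReal, abs_of_pos (inv_pos.2 hN)]
  have hay : a • y ≠ 0 := by
    rw [← norm_pos_iff, norm_smul, hna]
    positivity
  have h1 : ∃ T : Lp 𝕜 p μ →L[𝕜] Lp 𝕜 p μ,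
      Module.rank 𝕜 (LinearMap.range (T : Lp 𝕜 p μ →ₗ[𝕜] Lp 𝕜 p μ)) = 1 ∧ ‖T‖ = 1 ∧
        numRadius 𝕜 T < kappa p.toReal := by
    refine ⟨φ.smulRight (a • y), ?_, ?_, ?_⟩
    · rw [ContinuousLinearMap.range_smulRight_apply (norm_pos_iff.1 hφ0)]
      rw [← Module.finrank_eq_rank, finrank_span_singleton hay, Nat.cast_one]
    · rw [ContinuousLinearMap.norm_smulRight_apply, norm_smul, hna]
      field_simp
    · have h2 : numRadius 𝕜 (φ.smulRight (a • y)) ≤ (‖φ‖ * ‖y‖)⁻¹ * c := by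
        refine Real.sSup_le ?_ (by positivity)
        rintro _ ⟨z, f, hz, hf, hfz, rfl⟩
        rw [ContinuousLinearMap.smulRight_apply, map_smul, map_smul, norm_smul, norm_smul, hna,
          mul_left_comm]
        exact mul_le_mul_of_nonneg_left (hrad z f hz hf hfz) (by positivity)
      refine h2.trans_lt ?_
      unfold kappa
      rw [← hK, lt_div_iff₀ hK0, mul_assoc, inv_mul_lt_iff₀ hN, mul_one]
      exact hlt
  refine ⟨h1, ?_⟩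
  obtain ⟨T, h2, h3, h4⟩ := h1
  refine lt_of_le_of_lt (csInf_le ⟨0, ?_⟩ ⟨T, h2, h3, rfl⟩) h4
  rintro _ ⟨S, -, -, rfl⟩
  refine Real.sSup_nonneg ?_
  rintro _ ⟨x, f, -, -, -, rfl⟩
  exact norm_nonneg _

end Pool.Agent.Results.MP_d0ed5b_an.ABelowKappa
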